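import Pool.Agent.K3h71.NP.Stm

/-!
# The function field of the curve `A + w₁ + w₂ X = 0` (brick FLD)
-/

set_option autoImplicit false

namespace Pool.Agent.K3h67.NP

open Polynomial
open Pool.Agent.K3h82.CP (up2)
open Pool.Agent.K3h71.NP (net IsFun StmFld)

theorem isAlgebraic_of_adjoin_eq_top {K F : Type} [Field K] [Field F] [Algebra K F] (s : Set F)
    (hs : IntermediateField.adjoin K s = ⊤) : Algebra.IsAlgebraic (Algebra.adjoin K s) F := by
  constructor
  intro y
  have hy : y ∈ IntermediateField.adjoin K s := by rw [hs]; trivial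
  induction hy using IntermediateField.adjoin_induction with
  | mem y hy =>
    exact isAlgebraic_algebraMap (⟨y, Algebra.subset_adjoin hy⟩ : Algebra.adjoin K s)
  | algebraMap k =>
    exact isAlgebraic_algebraMap (algebraMap K (Algebra.adjoin K s) k)
  | add a b _ _ ha hb => exact ha.add hb
  | inv a _ ha => exact ha.inv
  | mul a b _ _ ha hb => exact ha.mul hb

/-- The values at points of an intermediate field. -/
theorem evalEval_mem {M K₁ : Type} [Field M] [Field K₁] [Algebra M K₁]
    (L : IntermediateField M K₁) (x y : K₁) (hx : x ∈ L) (hy : y ∈ L) (A : M[X][X]) :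
    evalEval x y (A.map (mapRingHom (algebraMap M K₁))) ∈ L := by
  have h1 : ∀ p : M[X], eval x (p.map (algebraMap M K₁)) ∈ L := by
    intro p
    rw [eval_map, eval₂_eq_sum_range]
    exact sum_mem fun i _ => mul_mem (L.algebraMap_mem _) (pow_mem hx _)
  rw [evalEval, eval_map, eval₂_eq_sum_range, eval_finsetSum]
  refine sum_mem fun i _ => ?_
  rw [eval_mul, eval_pow, eval_C, coe_mapRingHom]
  exact mul_mem (h1 _) (pow_mem hy _)

theorem net_eq {M K K₁ : Type} [Field M] [Field K] [Algebra M K] [Field K₁] [Algebra K K₁]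
    [Algebra M K₁] [IsScalarTower M K K₁] (A : M[X][X]) (w₁ w₂ : K) (x y : K₁) :
    evalEval x y ((net (up2 K A) w₁ w₂).map (mapRingHom (algebraMap K K₁))) =
      evalEval x y (A.map (mapRingHom (algebraMap M K₁))) +
        (algebraMap K K₁ w₁ + algebraMap K K₁ w₂ * x) := by
  have h1 : (up2 K A).map (mapRingHom (algebraMap K K₁)) =
      A.map (mapRingHom (algebraMap M K₁)) := by
    unfold up2
    rw [coe_mapRingHom, Polynomial.map_map, mapRingHom_comp,
      ← IsScalarTower.algebraMap_eq M K K₁]
  unfold net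
  rw [Polynomial.map_add, h1, evalEval_add, map_C]
  simp [evalEval]

theorem gen3 {M K K₁ : Type} [Field M] [Field K] [Algebra M K] [Field K₁] [Algebra K K₁]
    [Algebra M K₁] [IsScalarTower M K K₁] (A : M[X][X]) (w₁ w₂ : K) (x y : K₁)
    (hgen : IntermediateField.adjoin M {w₁, w₂} = ⊤)
    (hF : IsFun (net (up2 K A) w₁ w₂) x y) :
    IntermediateField.adjoin M ({x, y} ∪ {algebraMap K K₁ w₂} : Set K₁) = ⊤ := by
  set L := IntermediateField.adjoin M ({x, y} ∪ {algebraMap K K₁ w₂} : Set K₁) with hL
  have hx : x ∈ L := IntermediateField.subset_adjoin M _ (by simp)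
  have hy : y ∈ L := IntermediateField.subset_adjoin M _ (by simp)
  have hw₂ : algebraMap K K₁ w₂ ∈ L := IntermediateField.subset_adjoin M _ (by simp)
  have hw₁ : algebraMap K K₁ w₁ ∈ L := by
    have h1 := hF.eq
    rw [net_eq] at h1
    have h2 : algebraMap K K₁ w₁ = -evalEval x y (A.map (mapRingHom (algebraMap M K₁))) -
        algebraMap K K₁ w₂ * x := by linear_combination h1
    rw [h2]
    exact sub_mem (neg_mem (evalEval_mem L x y hx hy A)) (mul_mem hw₂ hx)
  have hK : ∀ k : K, algebraMap K K₁ k ∈ L := by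
    intro k
    have hk : k ∈ IntermediateField.adjoin M ({w₁, w₂} : Set K) := by rw [hgen]; trivial
    induction hk using IntermediateField.adjoin_induction with
    | mem z hz =>
      rcases hz with rfl | rfl
      · exact hw₁
      · exact hw₂
    | algebraMap c =>
      rw [← IsScalarTower.algebraMap_apply]
      exact L.algebraMap_mem c
    | add a b _ _ ha hb => rw [map_add]; exact add_mem ha hb
    | inv a _ ha => rw [map_inv₀]; exact inv_mem ha
    | mul a b _ _ ha hb => rw [map_mul]; exact mul_mem ha hb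
  rw [eq_top_iff]
  intro z _
  have hz : z ∈ IntermediateField.adjoin K ({x, y} : Set K₁) := by rw [hF.gen]; trivial
  induction hz using IntermediateField.adjoin_induction with
  | mem z hz =>
    rcases hz with rfl | rfl
    · exact hx
    · exact hy
  | algebraMap c => exact hK c
  | add a b _ _ ha hb => exact add_mem (ha trivial) (hb trivial)
  | inv a _ ha => exact inv_mem (ha trivial)
  | mul a b _ _ ha hb => exact mul_mem (ha trivial) (hb trivial)

theorem ind3 {M K K₁ : Type} [Field M] [Field K] [Algebra M K] [Field K₁] [Algebra K K₁]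
    [Algebra M K₁] [IsScalarTower M K K₁] (A : M[X][X]) (w₁ w₂ : K) (x y : K₁)
    (hind : AlgebraicIndependent M ![w₁, w₂])
    (hgen : IntermediateField.adjoin M {w₁, w₂} = ⊤)
    (hF : IsFun (net (up2 K A) w₁ w₂) x y) :
    AlgebraicIndependent M ![x, y, algebraMap K K₁ w₂] := by
  have h2 : (2 : Cardinal.{0}) ≤ Algebra.trdeg M K := by
    have h := hind.cardinalMk_le_trdeg
    simpa using h
  have h1 : (1 : Cardinal.{0}) ≤ Algebra.trdeg K K₁ := by
    have h := (algebraicIndependent_unique_type_iff (x := fun _ : Unit => x)).2 hF.tr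
    have h' := h.cardinalMk_le_trdeg
    simpa using h'
  have h3 : (3 : Cardinal.{0}) ≤ Algebra.trdeg M K₁ := by
    have hadd : Algebra.trdeg M K + Algebra.trdeg K K₁ = Algebra.trdeg M K₁ :=
      trdeg_add_eq M K
    rw [← hadd]
    calc (3 : Cardinal.{0}) = 2 + 1 := by norm_num
      _ ≤ _ := add_le_add h2 h1
  have hr : Set.range ![x, y, algebraMap K K₁ w₂] = {x, y} ∪ {algebraMap K K₁ w₂} := by
    ext z
    simp only [Matrix.range_cons, Matrix.range_empty, Set.union_empty, Set.mem_union,
      Set.mem_singleton_iff, Set.mem_insert_iff]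
    tauto
  have halg := isAlgebraic_of_adjoin_eq_top (K := M) (Set.range ![x, y, algebraMap K K₁ w₂])
    (by rw [hr]; exact gen3 A w₁ w₂ x y hgen hF)
  have hb := Algebra.IsAlgebraic.isTranscendenceBasis_of_le_trdeg_of_finite M
    ![x, y, algebraMap K K₁ w₂] (by simpa using h3)
  exact hb.1

/-- **FLD**: the function field of the curve `A + w₁ + w₂ X = 0` is `M(x, y)(w₂)`. -/
theorem t_Fld : StmFld := by
  intro M K K₁ _ _ _ _ _ _ _ _ _ _ A w₁ w₂ x y hind hgen _ _ hF
  have h3 := ind3 A w₁ w₂ x y hind hgen hF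
  refine ⟨?_, ?_, ?_⟩
  · have h := h3.comp (Fin.castSucc : Fin 2 → Fin 3) (Fin.castSucc_injective 2)
    have h' : ![x, y, algebraMap K K₁ w₂] ∘ (Fin.castSucc : Fin 2 → Fin 3) = ![x, y] := by
      ext i
      fin_cases i <;> rfl
    rwa [h'] at h
  · rw [IntermediateField.transcendental_adjoin_iff]
    have h := h3.transcendental_adjoin (s := {0, 1}) (i := 2) (by simp)
    have h' : ![x, y, algebraMap K K₁ w₂] '' {0, 1} = {x, y} := by
      rw [Set.image_insert_eq, Set.image_singleton]
      rfl
    rw [h'] at h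
    exact h
  · have h := IntermediateField.adjoin_adjoin_left M ({x, y} : Set K₁) {algebraMap K K₁ w₂}
    rw [gen3 A w₁ w₂ x y hgen hF] at h
    exact IntermediateField.restrictScalars_eq_top_iff.1 h

end Pool.Agent.K3h67.NP
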